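import Mathlib
import Pool.Agent.R881.FreeQuat
import Pool.Agent.R881.Coloring

/-!
MP_d3aff2_co, Q1 (negative answer): the replacement number of `ℝⁿ` is infinite for every `n ≥ 4`.
-/

open Cardinal
open scoped Quaternion

namespace Pool.Agent.Results.MP_d3aff2_co.ReplacementInfinite

/-- Euclidean `n`-space. -/
abbrev E (n : ℕ) : Type := EuclideanSpace ℝ (Fin n)

/-- A coloring of `ℝⁿ` is distinguishing if only the identity isometry preserves it. -/
def Distinguishing {n k : ℕ} (c : E n → Fin k) : Prop :=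
  ∀ g : E n ≃ᵢ E n, (∀ x, c (g x) = c x) → g = IsometryEquiv.refl (E n)

/-- The distinguishing number of `ℝⁿ`: the least `k` such that there is a distinguishing
`k`-coloring. -/
noncomputable def distNumber (n : ℕ) : ℕ := sInf {k | ∃ c : E n → Fin k, Distinguishing c}

/-- Every coloring with `distNumber n` colors can be made distinguishing by changing the colors of
at most `m` points. -/
def Repairs (n m : ℕ) : Prop :=
  ∀ c : E n → Fin (distNumber n), ∃ c' : E n → Fin (distNumber n),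
    Distinguishing c' ∧ {x | c' x ≠ c x}.encard ≤ m

/-- The replacement number of `ℝⁿ` (with the value `⊤` if there is no finite `m`). -/
noncomputable def replacementNumber (n : ℕ) : ℕ∞ := sInf {m : ℕ∞ | ∃ k : ℕ, m = k ∧ Repairs n k}

/-! ### The distinguishing number -/

/-- The points `√(n + i) e_i`. -/
noncomputable def pt {n : ℕ} (i : Fin n) : E n := EuclideanSpace.single i (Real.sqrt (n + i))

theorem dist_sq {n : ℕ} (x : E n) (i : Fin n) :
    dist x (pt i) ^ 2 = ‖x‖ ^ 2 - 2 * Real.sqrt (n + i) * x i + (n + i) := by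
  have h0 : (0 : ℝ) ≤ n + i := by positivity
  rw [dist_eq_norm, @norm_sub_sq_real, pt, EuclideanSpace.norm_single, Real.norm_eq_abs, sq_abs,
    Real.sq_sqrt h0]
  have : inner ℝ x (EuclideanSpace.single i (Real.sqrt (n + i))) = Real.sqrt (n + i) * x i := by
    rw [EuclideanSpace.inner_single_right]
    simp
  rw [this]
  ring

theorem dist_zero_pt {n : ℕ} (i : Fin n) : dist (0 : E n) (pt i) ^ 2 = n + i := by
  rw [dist_sq]
  simp

theorem dist_pt_pt {n : ℕ} (i j : Fin n) (hij : i ≠ j) :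
    dist (pt i : E n) (pt j) ^ 2 = (n + i) + (n + j) := by
  rw [dist_sq]
  have h0 : (0 : ℝ) ≤ n + i := by positivity
  have h1 : (pt i : E n) j = 0 := by
    simp [pt, hij.symm]
  rw [h1, pt, EuclideanSpace.norm_single, Real.norm_eq_abs, sq_abs, Real.sq_sqrt h0]
  ring

/-- The distinguishing set. -/
def P (n : ℕ) : Set (E n) := {x | x = 0 ∨ ∃ i : Fin n, x = pt i}

theorem cases_P {n : ℕ} (i : Fin n) (x y : E n) (hx : x ∈ P n) (hy : y ∈ P n)
    (h : dist x y ^ 2 = n + i) : (x = 0 ∧ y = pt i) ∨ (x = pt i ∧ y = 0) := by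
  have hn : (i : ℝ) < n := by exact_mod_cast i.2
  have hi0 : (0 : ℝ) ≤ i := by positivity
  have hinj : ∀ j : Fin n, (n : ℝ) + j = n + i → j = i := by
    intro j hj
    have : (j : ℝ) = i := by linarith
    exact Fin.ext (by exact_mod_cast this)
  rcases hx with rfl | ⟨j, rfl⟩
  · rcases hy with rfl | ⟨k, rfl⟩
    · rw [dist_self] at h
      nlinarith
    · rw [dist_zero_pt] at h
      left
      exact ⟨rfl, by rw [hinj k h]⟩
  · rcases hy with rfl | ⟨k, rfl⟩
    · rw [dist_comm, dist_zero_pt] at h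
      right
      exact ⟨by rw [hinj j h], rfl⟩
    · by_cases hjk : j = k
      · subst hjk
        rw [dist_self] at h
        nlinarith
      · rw [dist_pt_pt j k hjk] at h
        have h1 : (0 : ℝ) ≤ j := by positivity
        have h2 : (0 : ℝ) ≤ k := by positivity
        linarith

theorem pt_injective {n : ℕ} (i j : Fin n) (h : (pt i : E n) = pt j) : i = j := by
  by_contra hij
  have h1 := dist_pt_pt i j hij
  rw [h, dist_self] at h1
  have hn : (i : ℝ) < n := by exact_mod_cast i.2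
  have hi0 : (0 : ℝ) ≤ i := by positivity
  have hj0 : (0 : ℝ) ≤ j := by positivity
  nlinarith

theorem pt_ne_zero {n : ℕ} (i : Fin n) : (pt i : E n) ≠ 0 := by
  intro h
  have h1 := dist_zero_pt i
  rw [h, dist_self] at h1
  have hn : (i : ℝ) < n := by exact_mod_cast i.2
  have hi0 : (0 : ℝ) ≤ i := by positivity
  nlinarith

theorem fix_all {n : ℕ} (hn : 2 ≤ n) (g : E n ≃ᵢ E n) (hg : ∀ x, x ∈ P n → g x ∈ P n) :
    g = IsometryEquiv.refl (E n) := by
  have h1 : ∀ i : Fin n, (g 0 = 0 ∧ g (pt i) = pt i) ∨ (g 0 = pt i ∧ g (pt i) = 0) := by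
    intro i
    apply cases_P i _ _ (hg 0 (Or.inl rfl)) (hg (pt i) (Or.inr ⟨i, rfl⟩))
    rw [g.dist_eq, dist_zero_pt]
  have h0 : g 0 = 0 := by
    rcases h1 ⟨0, by omega⟩ with h | h
    · exact h.1
    · rcases h1 ⟨1, by omega⟩ with h' | h'
      · exact h'.1
      · have := pt_injective _ _ (h.1.symm.trans h'.1)
        simp at this
  have h2 : ∀ i : Fin n, g (pt i) = pt i := by
    intro i
    rcases h1 i with h | h
    · exact h.2
    · exact absurd (h.1.symm.trans h0) (pt_ne_zero i)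
  ext x
  have hnorm : ‖g x‖ = ‖x‖ := by
    have := g.dist_eq x 0
    rwa [h0, dist_zero_right, dist_zero_right] at this
  rename_i i
  have h3 : dist (g x) (pt i) ^ 2 = dist x (pt i) ^ 2 := by
    conv_lhs => rw [← h2 i]
    rw [g.dist_eq]
  rw [dist_sq, dist_sq, hnorm] at h3
  have hpos : 0 < Real.sqrt ((n : ℝ) + i) := by
    apply Real.sqrt_pos.2
    have hn : (i : ℝ) < n := by exact_mod_cast i.2
    have hi0 : (0 : ℝ) ≤ i := by positivity
    linarith
  have h4 : Real.sqrt ((n : ℝ) + i) * g x i = Real.sqrt ((n : ℝ) + i) * x i := by linarith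
  exact mul_left_cancel₀ hpos.ne' h4

theorem distNumber_eq {n : ℕ} (hn : 2 ≤ n) : distNumber n = 2 := by
  classical
  have h2 : (2 : ℕ) ∈ {k | ∃ c : E n → Fin k, Distinguishing c} := by
    refine ⟨fun x => if x ∈ P n then 1 else 0, ?_⟩
    intro g hg
    apply fix_all hn g
    intro x hx
    have := hg x
    simp only [if_pos hx] at this
    by_contra h
    rw [if_neg h] at this
    exact absurd this (by decide)
  apply le_antisymm (Nat.sInf_le h2)
  apply le_csInf ⟨2, h2⟩
  rintro k ⟨c, hc⟩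
  by_contra hk
  have hk' : k = 0 ∨ k = 1 := by omega
  rcases hk' with rfl | rfl
  · exact Fin.elim0 (c 0)
  · have h1 := hc (LinearIsometryEquiv.neg ℝ (E := E n)).toIsometryEquiv
      (fun x => Subsingleton.elim _ _)
    have h3 : (LinearIsometryEquiv.neg ℝ (E := E n)).toIsometryEquiv (pt ⟨0, by omega⟩) =
        pt ⟨0, by omega⟩ := by rw [h1]; rfl
    have h4 : -(pt ⟨0, by omega⟩ : E n) = pt ⟨0, by omega⟩ := h3
    have h5 : (2 : ℝ) • (pt ⟨0, by omega⟩ : E n) = 0 := by
      rw [two_smul]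
      nth_rewrite 1 [← h4]
      exact neg_add_cancel _
    rcases smul_eq_zero.1 h5 with h6 | h6
    · norm_num at h6
    · exact pt_ne_zero _ h6

/-! ### The free group of isometries -/

/-- The first four coordinates as a quaternion, and the others. -/
noncomputable def Ψ (k : ℕ) : E (4 + k) ≃ ℍ[ℝ] × (Fin k → ℝ) where
  toFun x := (⟨x (Fin.castAdd k 0), x (Fin.castAdd k 1), x (Fin.castAdd k 2),
    x (Fin.castAdd k 3)⟩, fun j => x (Fin.natAdd 4 j))
  invFun p := WithLp.toLp 2 (Fin.append ![p.1.re, p.1.imI, p.1.imJ, p.1.imK] p.2)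
  left_inv := by
    intro x
    ext i
    refine Fin.addCases (fun i => ?_) (fun i => ?_) i
    · fin_cases i <;> simp [Fin.append_left]
    · simp [Fin.append_right]
  right_inv := by
    rintro ⟨q, f⟩
    apply Prod.ext
    · ext <;> simp [Fin.append_left]
    · funext j
      simp [Fin.append_right]

theorem dist_Ψ (k : ℕ) (x y : E (4 + k)) : dist x y ^ 2 =
    ‖(Ψ k x).1 - (Ψ k y).1‖ ^ 2 + ∑ j, ((Ψ k x).2 j - (Ψ k y).2 j) ^ 2 := by
  rw [EuclideanSpace.dist_eq, Real.sq_sqrt (Finset.sum_nonneg fun _ _ => sq_nonneg _),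
    Fin.sum_univ_add, Fin.sum_univ_four, sq ‖(Ψ k x).1 - (Ψ k y).1‖,
    ← Quaternion.normSq_eq_norm_mul_self, Quaternion.normSq_def']
  simp only [Real.dist_eq, sq_abs]
  rfl

/-- The action of the quaternions on `ℝ^{4+k}`. -/
noncomputable def Θ (k : ℕ) : ℍ[ℝ]ˣ →* Equiv.Perm (E (4 + k)) where
  toFun u := (Ψ k).trans (((Units.mulLeft u).prodCongr (Equiv.refl _)).trans (Ψ k).symm)
  map_one' := by
    ext1 x
    simp only [Equiv.trans_apply, Equiv.prodCongr_apply, Units.mulLeft_apply, Units.val_one,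
      one_mul, Equiv.coe_refl]
    exact (Ψ k).symm_apply_apply x
  map_mul' u v := by
    ext1 x
    simp only [Equiv.trans_apply, Equiv.Perm.mul_apply, Equiv.apply_symm_apply,
      Equiv.prodCongr_apply, Prod.map_apply, Units.mulLeft_apply, Units.val_mul, Equiv.refl_apply,
      mul_assoc, Prod.map_fst, Prod.map_snd]
    rfl

theorem Ψ_Θ (k : ℕ) (u : ℍ[ℝ]ˣ) (x : E (4 + k)) :
    Ψ k (Θ k u x) = (u * (Ψ k x).1, (Ψ k x).2) := by
  show Ψ k ((Ψ k).symm _) = _
  rw [Equiv.apply_symm_apply]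
  rfl

theorem isometry_Θ (k : ℕ) (u : ℍ[ℝ]ˣ) (hu : ‖(u : ℍ[ℝ])‖ = 1) (x y : E (4 + k)) :
    dist (Θ k u x) (Θ k u y) = dist x y := by
  have h1 : dist (Θ k u x) (Θ k u y) ^ 2 = dist x y ^ 2 := by
    rw [dist_Ψ, dist_Ψ, Ψ_Θ, Ψ_Θ]
    simp only
    rw [← mul_sub, norm_mul, hu, one_mul]
  have := congrArg Real.sqrt h1
  rwa [Real.sqrt_sq dist_nonneg, Real.sqrt_sq dist_nonneg] at this

/-- The isometry. -/
noncomputable def iso (k : ℕ) (u : ℍ[ℝ]ˣ) (hu : ‖(u : ℍ[ℝ])‖ = 1) : E (4 + k) ≃ᵢ E (4 + k) where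
  toEquiv := Θ k u
  isometry_toFun := Isometry.of_dist_eq (isometry_Θ k u hu)

theorem norm_qu (l : ℂ) (hl : ‖l‖ = 1) :
    ‖((Pool.Agent.R881.FreeQuat.qu l hl : ℍ[ℝ]ˣ) : ℍ[ℝ])‖ = 1 := by
  have h1 := Pool.Agent.R881.FreeQuat.normSq_q l hl
  rw [Quaternion.normSq_eq_norm_mul_self] at h1
  have h2 : ‖Pool.Agent.R881.FreeQuat.q l‖ = 1 := by
    nlinarith [norm_nonneg (Pool.Agent.R881.FreeQuat.q l)]
  exact h2

theorem card_le (n : ℕ) : #(Finset (E n)) ≤ 𝔠 := by
  have h1 : #(E n) ≤ 𝔠 := by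
    have h2 : #(E n) = #(Fin n → ℝ) := Cardinal.mk_congr (WithLp.equiv 2 (Fin n → ℝ))
    rw [h2]
    have h3 : #(Fin n → ℝ) ≤ #(ℕ → ℝ) := by
      refine Cardinal.mk_le_of_injective (f := fun f i => if h : i < n then f ⟨i, h⟩ else 0) ?_
      intro f g hfg
      funext i
      have := congrFun hfg i
      simpa using this
    refine h3.trans ?_
    simp [Cardinal.mk_real]
  rcases finite_or_infinite (E n) with h | h
  · exact ((Cardinal.mk_lt_aleph0).le).trans aleph0_le_continuum
  · rw [Cardinal.mk_finset_of_infinite]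
    exact h1

/-- The coloring that cannot be repaired. -/
theorem exists_bad (k : ℕ) : ∃ c : E (4 + k) → Fin 2, ∀ c' : E (4 + k) → Fin 2,
    {x | c' x ≠ c x}.Finite → ¬ Distinguishing c' := by
  classical
  obtain ⟨lam, hlam, hn⟩ := Pool.Agent.R881.FreeQuat.exists_family (Finset (E (4 + k)))
    (card_le (4 + k))
  let T : Finset (E (4 + k)) → Equiv.Perm (E (4 + k)) := fun F =>
    Θ k (Pool.Agent.R881.FreeQuat.qu (lam F) (hn F))
  have hlift : ∀ w : FreeGroup (Finset (E (4 + k))), FreeGroup.lift T w =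
      Θ k (FreeGroup.lift (fun F => Pool.Agent.R881.FreeQuat.qu (lam F) (hn F)) w) := by
    intro w
    have : FreeGroup.lift T = (Θ k).comp
        (FreeGroup.lift (fun F => Pool.Agent.R881.FreeQuat.qu (lam F) (hn F))) := by
      apply FreeGroup.ext_hom
      intro F
      rw [FreeGroup.lift_apply_of, MonoidHom.comp_apply, FreeGroup.lift_apply_of]
    rw [this]
    rfl
  obtain ⟨c, hc⟩ := Pool.Agent.R881.Coloring.exists_coloring T
    (fun F => (F : Set (E (4 + k)))) {x | (Ψ k x).1 = 0}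
    (by
      intro F x hx
      apply (Ψ k).injective
      have hx' : (Ψ k x).1 = 0 := hx
      show Ψ k (Θ k _ x) = _
      rw [Ψ_Θ, hx', mul_zero, ← hx'])
    (by
      intro w x hx hw
      have hx' : (Ψ k x).1 ≠ 0 := hx
      rw [hlift] at hw
      have h1 := congrArg (fun y => (Ψ k y).1) hw
      simp only [Ψ_Θ] at h1
      have h2 := mul_right_cancel₀ hx' (h1.trans (one_mul _).symm)
      exact Pool.Agent.R881.FreeQuat.free lam hlam hn w (Units.ext h2))
  refine ⟨c, fun c' hfin hdist => ?_⟩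
  let F : Finset (E (4 + k)) := hfin.toFinset
  have hF : ∀ x, x ∈ (F : Set (E (4 + k))) ↔ c' x ≠ c x := by
    intro x
    simp [F]
  have hc' : ∀ x, c' x = c x + Pool.Agent.R881.Coloring.ind (F : Set (E (4 + k))) x := by
    intro x
    unfold Pool.Agent.R881.Coloring.ind
    by_cases h : c' x = c x
    · rw [if_neg (fun h' => (hF x).1 h' h), h]
      exact (add_zero (c x : ZMod 2)).symm
    · rw [if_pos ((hF x).2 h)]
      have : ∀ a b : ZMod 2, a ≠ b → a = b + 1 := by decide
      exact this _ _ h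
  have h1 := hdist (iso k (Pool.Agent.R881.FreeQuat.qu (lam F) (hn F)) (norm_qu _ _))
    (fun x => by
      have h2 := hc F x
      rw [← hc' , ← hc'] at h2
      exact h2)
  -- the isometry is not the identity
  have h2 : FreeGroup.of F = (1 : FreeGroup (Finset (E (4 + k)))) := by
    apply Pool.Agent.R881.FreeQuat.free lam hlam hn
    rw [FreeGroup.lift_apply_of]
    let x : E (4 + k) := (Ψ k).symm (1, 0)
    have h3 : iso k (Pool.Agent.R881.FreeQuat.qu (lam F) (hn F)) (norm_qu _ _) x = x := by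
      rw [h1]; rfl
    have h4 : Θ k (Pool.Agent.R881.FreeQuat.qu (lam F) (hn F)) x = x := h3
    have h5 := congrArg (fun y => (Ψ k y).1) h4
    simp only [Ψ_Θ] at h5
    have h6 : (Ψ k x).1 = 1 := by
      show (Ψ k ((Ψ k).symm (1, 0))).1 = 1
      rw [Equiv.apply_symm_apply]
    rw [h6, mul_one] at h5
    exact Units.ext h5
  exact FreeGroup.of_ne_one F h2

/-- **Q1 of MP_d3aff2_co, negated form.** For every `n ≥ 4` the distinguishing number of `ℝⁿ`
under its isometry group is `2`, there is a `2`-coloring which does not become distinguishing by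
any change of the colors of finitely many points, and the replacement number of `ℝⁿ` is
infinite. -/
theorem result (n : ℕ) (hn : 4 ≤ n) : distNumber n = 2 ∧
    (∃ c : E n → Fin (distNumber n), ∀ c' : E n → Fin (distNumber n),
      {x | c' x ≠ c x}.Finite → ¬ Distinguishing c') ∧
    replacementNumber n = ⊤ := by
  have h2 : distNumber n = 2 := distNumber_eq (by omega)
  have hbad : ∃ c : E n → Fin (distNumber n), ∀ c' : E n → Fin (distNumber n),
      {x | c' x ≠ c x}.Finite → ¬ Distinguishing c' := by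
    obtain ⟨k, rfl⟩ := Nat.exists_eq_add_of_le hn
    rw [h2]
    exact exists_bad k
  refine ⟨h2, hbad, ?_⟩
  have hempty : {m : ℕ∞ | ∃ k : ℕ, m = k ∧ Repairs n k} = ∅ := by
    ext m
    simp only [Set.mem_setOf_eq, Set.mem_empty_iff_false, iff_false]
    rintro ⟨k, -, hk⟩
    obtain ⟨c, hc⟩ := hbad
    obtain ⟨c', h3, h4⟩ := hk c
    exact hc c' (Set.finite_of_encard_le_coe h4) h3
  rw [replacementNumber, hempty]
  exact sInf_empty

end Pool.Agent.Results.MP_d3aff2_co.ReplacementInfinite
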